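import Pool.Agent.Q217.CI.Main

set_option autoImplicit false

/-!
# Continuum many axiomatic extensions of `FL_ew` have the Craig interpolation property

Let `B` be a Boolean algebra and let `s` be a set of elements of `B` with `1 ∈ s`, `0 ∉ s`. Let `A(B, s)`
be the set of the pairs `(b, i)`, `b ∈ B`, `i ∈ {0, 1}`, with `i = 0` or `b ∈ s`, ordered
lexicographically. With `(b, i) (c, j) = (b ∧ c, 0)` for elements `≠ (1, 1)` and the unit `(1, 1)` it is
an `FL_ew`-algebra. If a class of pairs `(B, s)` is closed under amalgamation, its logic has the Craig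
interpolation property: the free amalgam of `(B, s)` and `(C, t)` has the special elements `s ∪ t`.
Since a Boolean algebra is not the union of two proper subalgebras, a class that omits finite algebras
in which all elements except `0` and the atoms are special has free amalgamation.
-/

namespace Pool.Agent.Results.MP_dd1479_lc.ContinuumManyCIP

open Pool.Agent.Q217.FL Pool.Agent.Q217.CI

/-- There are infinitely many (exactly continuum many) axiomatic extensions of `FL_ew` with the Craig
interpolation property; extensions are counted by their sets of theorems. -/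
theorem result :
    {T : Set Fml | ∃ R : Set Fml → Fml → Prop,
      AxiomaticExtension R ∧ CIP R ∧ T = {φ | R ∅ φ}}.Infinite ∧
    Cardinal.mk {T : Set Fml // ∃ R : Set Fml → Fml → Prop,
      AxiomaticExtension R ∧ CIP R ∧ T = {φ | R ∅ φ}} = Cardinal.continuum ∧
    ∃ F : Set ℕ → Set Fml → Fml → Prop, (Function.Injective fun A => {φ | F A ∅ φ}) ∧
      ∀ A : Set ℕ, AxiomaticExtension (F A) ∧ CIP (F A) := by
  have h1 : Cardinal.mk {T : Set Fml // ∃ R : Set Fml → Fml → Prop,
      AxiomaticExtension R ∧ CIP R ∧ T = {φ | R ∅ φ}} = Cardinal.continuum := by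
    refine le_antisymm ((Cardinal.mk_subtype_le _).trans card_le) ?_
    have h2 : Cardinal.mk (Set ℕ) ≤ Cardinal.mk {T : Set Fml // ∃ R : Set Fml → Fml → Prop,
        AxiomaticExtension R ∧ CIP R ∧ T = {φ | R ∅ φ}} := by
      refine Cardinal.mk_le_of_injective
        (f := fun A => ⟨{φ | Lg A ∅ φ}, Lg A, lg_ext A, lg_cip A, rfl⟩) ?_
      intro A B hAB
      exact lg_inj (congrArg Subtype.val hAB)
    refine le_trans (le_of_eq ?_) h2
    rw [Cardinal.mk_set, Cardinal.mk_nat, Cardinal.two_power_aleph0]
  refine ⟨?_, h1, Lg, lg_inj, fun A => ⟨lg_ext A, lg_cip A⟩⟩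
  rw [← Set.infinite_coe_iff, Cardinal.infinite_iff]
  change Cardinal.aleph0 ≤ Cardinal.mk {T : Set Fml // ∃ R : Set Fml → Fml → Prop,
      AxiomaticExtension R ∧ CIP R ∧ T = {φ | R ∅ φ}}
  rw [h1]
  exact Cardinal.aleph0_le_continuum

end Pool.Agent.Results.MP_dd1479_lc.ContinuumManyCIP
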